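import Mathlib
import Pool.Agent.Lead.Ek.Defs

set_option autoImplicit false

namespace Pool.Agent.Helper93.Ek

open Finset Pool.Agent.Lead.Ek

section Blow

variable {G : Type} [DecidableEq G] [Fintype G] {H : Type} [DecidableEq H] [Fintype H]

/-- The blow-up of a complex: every element is replaced by `H` copies. -/
def blow (H : Type) [DecidableEq H] (K : Set (Finset G)) : Set (Finset (G × H)) :=
  {X | X.image Prod.fst ∈ K}

/-- The `e`-copy of `G`. -/
def emb (e : H) : G ↪ G × H := ⟨fun g => (g, e), fun a b h => (Prod.mk.inj h).1⟩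

theorem blow_red_aux (K : Set (Finset G)) (e : H) :
    ∀ (n : ℕ) (R : Finset (G × H)), (univ : Finset G).map (emb e) ⊆ R →
      (R \ (univ : Finset G).map (emb e)).card = n →
      Red (blow H K) R ((univ : Finset G).map (emb e)) := by
  intro n
  induction n with
  | zero =>
    intro R hR hn
    have h0 : R \ (univ : Finset G).map (emb e) = ∅ := Finset.card_eq_zero.mp hn
    have h1 : R ⊆ (univ : Finset G).map (emb e) := Finset.sdiff_eq_empty_iff_subset.mp h0
    have h2 : R = (univ : Finset G).map (emb e) := Finset.Subset.antisymm h1 hR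
    subst h2
    exact Red.refl _
  | succ n ih =>
    intro R hR hn
    have hne : (R \ (univ : Finset G).map (emb e)).Nonempty := by
      rw [← Finset.card_pos, hn]; omega
    obtain ⟨x, hx⟩ := hne
    have hxR : x ∈ R := (Finset.mem_sdiff.mp hx).1
    have hx0 : x ∉ (univ : Finset G).map (emb e) := (Finset.mem_sdiff.mp hx).2
    refine Red.step R _ x hxR hx0 ?_ ?_
    · have hy0 : (x.1, e) ∈ (univ : Finset G).map (emb e) :=
        Finset.mem_map.mpr ⟨x.1, Finset.mem_univ _, rfl⟩
      have hne : (x.1, e) ≠ x := by
        intro h; rw [h] at hy0; exact hx0 hy0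
      refine NE.irr _ _ (x.1, e) (Finset.mem_erase.mpr ⟨hne, hR hy0⟩) ?_
      intro X _
      show (insert x X).image Prod.fst ∈ K ↔ (insert x (insert (x.1, e) X)).image Prod.fst ∈ K
      simp only [Finset.image_insert, Finset.insert_idem]
    · refine ih _ ?_ ?_
      · intro y hy
        refine Finset.mem_erase.mpr ⟨?_, hR hy⟩
        rintro rfl
        exact hx0 hy
      · have : R.erase x \ (univ : Finset G).map (emb e)
            = (R \ (univ : Finset G).map (emb e)).erase x := by
          ext y
          simp only [Finset.mem_sdiff, Finset.mem_erase]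
          tauto
        rw [this, Finset.card_erase_of_mem hx, hn]
        rfl

theorem blow_red (K : Set (Finset G)) (e : H) :
    Red (blow H K) univ ((univ : Finset G).map (emb e)) :=
  blow_red_aux K e _ univ (Finset.subset_univ _) rfl

theorem blow_cx (K : Set (Finset G)) (h : Cx K) : Cx (blow H K) := by
  intro X hX Y hY
  exact h _ hX _ (Finset.image_subset_image hY)

theorem blow_emb (K : Set (Finset G)) (e : H) (X : Finset G) :
    X.map (emb e) ∈ blow H K ↔ X ∈ K := by
  have : (X.map (emb e)).image Prod.fst = X := by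
    ext a
    simp only [Finset.mem_image, Finset.mem_map, emb, Function.Embedding.coeFn_mk]
    constructor
    · rintro ⟨b, ⟨c, hc, rfl⟩, rfl⟩
      exact hc
    · intro ha
      exact ⟨(a, e), ⟨a, ha, rfl⟩, rfl⟩
  show (X.map (emb e)).image Prod.fst ∈ K ↔ X ∈ K
  rw [this]

theorem blow_card (K : Set (Finset G)) (hcx : Cx K) (hu : (univ : Finset G) ∉ K)
    (X : Finset (G × H)) (hX : X ∈ blow H K) : Fintype.card H ≤ Xᶜ.card := by
  have h1 : X.image Prod.fst ≠ univ := by
    intro h
    have : X.image Prod.fst ∈ K := hX
    rw [h] at this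
    exact hu this
  obtain ⟨g, hg⟩ : ∃ g, g ∉ X.image Prod.fst := by
    by_contra hcon
    push_neg at hcon
    exact h1 (Finset.eq_univ_iff_forall.mpr hcon)
  have h2 : (univ : Finset H).map ⟨fun h => (g, h), fun a b h => (Prod.mk.inj h).2⟩ ⊆ Xᶜ := by
    intro y hy
    obtain ⟨h, _, rfl⟩ := Finset.mem_map.mp hy
    rw [Finset.mem_compl]
    intro hmem
    exact hg (Finset.mem_image.mpr ⟨_, hmem, rfl⟩)
  have h3 := Finset.card_le_card h2
  rwa [Finset.card_map, Finset.card_univ] at h3

theorem blow_linv {G : Type} [Group G] [DecidableEq G] {H : Type} [Group H] [DecidableEq H]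
    (K : Set (Finset G)) (h : LInv K) :
    LInv ({X | X.image Prod.fst ∈ K} : Set (Finset (G × H))) := by
  intro g X hX
  have h1 := h g.1 _ hX
  have h2 : (X.image (fun x => g * x)).image Prod.fst
      = (X.image Prod.fst).image (fun x => g.1 * x) := by
    rw [Finset.image_image, Finset.image_image]
    rfl
  show (X.image (fun x => g * x)).image Prod.fst ∈ K
  rw [h2]
  exact h1

end Blow

theorem blowup : P5_blowup := by
  intro c G _ _ _ K hcx hinv hempty huniv
  refine ⟨G × Multiplicative (ZMod (c + 1)), inferInstance, inferInstance, inferInstance,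
    {X | X.image Prod.fst ∈ K}, emb 1, ?_, ?_, ?_, ?_, ?_, ?_⟩
  · exact blow_cx (H := Multiplicative (ZMod (c + 1))) K hcx
  · exact blow_linv K hinv
  · intro X hX
    have h1 := blow_card (H := Multiplicative (ZMod (c + 1))) K hcx huniv X hX
    have h2 : Fintype.card (Multiplicative (ZMod (c + 1))) = c + 1 := by
      rw [Fintype.card_multiplicative, ZMod.card]
    omega
  · rw [Finset.card_compl, Finset.card_map, Fintype.card_prod, Fintype.card_multiplicative,
      ZMod.card, Finset.card_univ]
    have hpos : 0 < Fintype.card G := Fintype.card_pos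
    have : Fintype.card G * (c + 1) - Fintype.card G = Fintype.card G * c := by
      rw [Nat.mul_succ]; omega
    rw [this]
    exact Nat.le_mul_of_pos_left c hpos
  · exact blow_emb K 1
  · exact blow_red K 1

end Pool.Agent.Helper93.Ek
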